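import Pool.Agent.FAT.Filt
import Pool.Agent.FAT.Pts
import Pool.Agent.FAT.Lift
import Pool.Agent.FAT.Trans
import Pool.Agent.FAT.Count
import Pool.Agent.FAT.Cofinal
import Pool.Agent.FAT.GFun
import Pool.Agent.FAT.KEQ
import Pool.Agent.FAT.XCard
import Pool.Agent.FAT.WSq
import Pool.Agent.FAT.Final
import Pool.Agent.FAT.Reduce
import Pool.Agent.FAS.Main

/-!
MP_a44074_lc: stationary sets in the ideal `I[E_{cf lam}; lam]`.

Let `θ` be a regular cardinal.  For a singular cardinal `μ > θ` with `cf μ < θ` we introduce the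
strategic version `Strategic μ θ` of the club version of the statement
`E_θ ∩ μ⁺ ∈ I[E_{cf μ}; μ]`.  It follows from the club version and from weak square at `μ`, it
implies Q1 at `μ` (with points of cofinality `θ`), and it satisfies a theorem of Silver type: if it
fails at `lam`, where `κ = cf lam` is uncountable and `ν ^ κ < lam` for all `ν < lam`, then it fails
at club many cardinals `μ < lam`.  So if Q1 fails at such a `lam`, then the strategic version fails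
at stationarily many `μ < lam` of countable cofinality.
-/

set_option autoImplicit false

namespace Pool.Agent.Results.MP_a44074_lc.StrategicVersion

open Ordinal Cardinal Order Set

/-- `C` is closed and unbounded in the ordinal `γ`. -/
def IsClubIn (C : Set Ordinal.{0}) (γ : Ordinal.{0}) : Prop :=
  C ⊆ Set.Iio γ ∧ (∀ β < γ, ∃ c ∈ C, β < c) ∧
    (∀ β < γ, β ≠ 0 → (∀ δ < β, ∃ c ∈ C, δ < c ∧ c < β) → β ∈ C)

/-- Q1 for the cardinal `lam` and points of cofinality `θ`: some stationary `T ⊆ lam⁺`, which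
consists of points of cofinality `θ`, lies in the trace of `E_{cf lam}` and has a subadditive
normal `d : [lam⁺]² → cf lam` and a club `D` such that every `γ ∈ T ∩ D` with `cf γ > cf lam` has
a stationary `Sg ⊆ E_{cf lam} ∩ γ` on which `d` is bounded below `cf lam`.  (Without the clause
`γ.cof = θ` this is the text of the frozen statement S15151 for one `lam`.) -/
def Q1At (lam θ : Cardinal.{0}) : Prop :=
  ∃ T : Set Ordinal.{0},
    (∀ γ ∈ T, γ < (succ lam).ord ∧ ℵ₀ < γ.cof ∧ γ.cof = θ ∧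
      ∀ C : Set Ordinal.{0}, IsClubIn C γ → ∃ c ∈ C, c < γ ∧ c.cof = lam.ord.cof) ∧
    (∀ C : Set Ordinal.{0}, IsClubIn C (succ lam).ord → ∃ c ∈ C, c ∈ T) ∧
    ∃ d : Ordinal.{0} → Ordinal.{0} → Ordinal.{0},
      (∀ α β : Ordinal.{0}, α < β → β < (succ lam).ord → d α β < lam.ord.cof.ord) ∧
      (∀ α β γ : Ordinal.{0}, α < β → β < γ → γ < (succ lam).ord →
        d α γ ≤ max (d α β) (d β γ)) ∧
      (∀ i < lam.ord.cof.ord, ∀ β < (succ lam).ord,
        #{α : Ordinal.{0} // α < β ∧ d α β ≤ i} < Cardinal.lift.{1} lam) ∧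
      ∃ D : Set Ordinal.{0}, IsClubIn D (succ lam).ord ∧
        ∀ γ ∈ T, γ ∈ D → lam.ord.cof < γ.cof →
          ∃ Sg : Set Ordinal.{0},
            (∀ α ∈ Sg, α < γ ∧ α.cof = lam.ord.cof) ∧
            (∀ C : Set Ordinal.{0}, IsClubIn C γ → ∃ c ∈ C, c ∈ Sg) ∧
            ∃ j < lam.ord.cof.ord, ∀ α ∈ Sg, ∀ β ∈ Sg, α < β → d α β ≤ j

/-- `d` is normal: `{α < β : d α β ≤ i}` has fewer than `μ` elements for `β < μ⁺`, `i < cf μ`. -/
def Normal (μ : Cardinal.{0}) (d : Ordinal.{0} → Ordinal.{0} → Ordinal.{0}) : Prop :=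
  ∀ i < μ.ord.cof.ord, ∀ β < (succ μ).ord,
    #{α : Ordinal.{0} // α < β ∧ d α β ≤ i} < Cardinal.lift.{1} μ

/-- `γ` is good for `d`: it has a club `D` such that for every `β ∈ D` of cofinality `cf μ` the
values `d α β`, where `α ∈ D ∩ β` has cofinality `cf μ`, are bounded below `cf μ`. -/
def Good (μ : Cardinal.{0}) (d : Ordinal.{0} → Ordinal.{0} → Ordinal.{0}) (γ : Ordinal.{0}) :
    Prop :=
  ∃ D : Set Ordinal.{0}, IsClubIn D γ ∧ ∀ β ∈ D, β.cof = μ.ord.cof →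
    ∃ i < μ.ord.cof.ord, ∀ α ∈ D, α < β → α.cof = μ.ord.cof → d α β ≤ i

/-- The club version of the statement that the set of all `γ < μ⁺` of cofinality `θ` is in
`I[E_{cf μ}; μ]`: for some normal `d` every `γ < μ⁺` of cofinality `θ` is good. -/
def ClubVersion (μ θ : Cardinal.{0}) : Prop :=
  ∃ d : Ordinal.{0} → Ordinal.{0} → Ordinal.{0},
    Normal μ d ∧ ∀ γ < (succ μ).ord, γ.cof = θ → Good μ d γ

/-- The sequence `(e i)`, `i < θ`, is strictly increasing and continuous, with limit `γ`. -/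
def HasLimit (θ : Cardinal.{0}) (γ : Ordinal.{0}) (e : Ordinal.{0} → Ordinal.{0}) : Prop :=
  (∀ i < θ.ord, e i < γ) ∧ (∀ i < θ.ord, ∀ i' < i, e i' < e i) ∧
    (∀ i < θ.ord, IsSuccLimit i → ∀ β < e i, ∃ i' < i, β < e i') ∧
    ∀ β < γ, ∃ i < θ.ord, β < e i

/-- The strategic version: there are a normal `d` and a function `Φ`, which assigns to every set of
fewer than `θ` ordinals below `μ⁺` an ordinal below `μ⁺`, such that every `γ < μ⁺` is good which is
the limit of a strictly increasing continuous sequence `(e i)`, `i < θ`, with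
`Φ {e i : i ≤ η} < e (η + 1)` for all `η < θ`. -/
def Strategic (μ θ : Cardinal.{0}) : Prop :=
  ∃ (d : Ordinal.{0} → Ordinal.{0} → Ordinal.{0}) (Φ : Set Ordinal.{0} → Ordinal.{0}),
    Normal μ d ∧
    (∀ s : Set Ordinal.{0}, s ⊆ Set.Iio (succ μ).ord → #s < Cardinal.lift.{1} θ →
      Φ s < (succ μ).ord) ∧
    ∀ γ < (succ μ).ord, ∀ e : Ordinal.{0} → Ordinal.{0}, HasLimit θ γ e →
      (∀ η < θ.ord, Φ (e '' Set.Iic η) < e (succ η)) → Good μ d γ

/-- Jensen's weak square at `μ`: for every limit ordinal `ε < μ⁺` a nonempty family `C ε` of at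
most `μ` clubs of `ε` of order type at most `μ`, and if `ε'` is a limit point of `D ∈ C ε` then
`D ∩ ε' ∈ C ε'`. -/
def WeakSquare (μ : Cardinal.{0}) : Prop :=
  ∃ C : Ordinal.{0} → Set (Set Ordinal.{0}), ∀ ε < (succ μ).ord, IsSuccLimit ε →
    (C ε).Nonempty ∧ #(C ε) ≤ Cardinal.lift.{1} μ ∧
    ∀ D ∈ C ε, IsClubIn D ε ∧
      Ordinal.type (fun a b : D => a < b) ≤ Ordinal.lift.{1} μ.ord ∧
      ∀ ε' < ε, ε' ≠ 0 → (∀ δ < ε', ∃ c ∈ D, δ < c ∧ c < ε') → D ∩ Set.Iio ε' ∈ C ε'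

theorem strategic_iff (μ θ : Cardinal.{0}) : Strategic μ θ ↔ Pool.FAS.SV μ θ := by
  constructor
  · rintro ⟨d, Φ, h1, h2, h3⟩
    exact ⟨d, Φ, h1, h2, fun γ hγ e he hf => h3 γ hγ e ⟨he.lt, he.strict, he.cont, he.cofinal⟩ hf⟩
  · rintro ⟨d, Φ, h1, h2, h3⟩
    exact ⟨d, Φ, h1, h2, fun γ hγ e he hf => h3 γ hγ e ⟨he.1, he.2.1, he.2.2.1, he.2.2.2⟩ hf⟩

/-- The strategic version: (1) it implies Q1, and follows from the club version and from weak
square; (2) its failure at `lam` (for example because Q1 fails at `lam`) goes down to club many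
cardinals `μ < lam` of cofinality less than `cf lam`, and therefore to stationarily many of
countable cofinality. -/
theorem result (θ : Cardinal.{0}) (hreg : θ.IsRegular) :
    (∀ μ : Cardinal.{0}, μ.ord.cof < θ → θ < μ →
      (Strategic μ θ → Q1At μ θ) ∧ (ClubVersion μ θ ∨ WeakSquare μ → Strategic μ θ)) ∧
    ∀ lam : Cardinal.{0}, ℵ₀ < lam.ord.cof → lam.ord.cof < θ → θ < lam →
      (∀ ν < lam, ν ^ lam.ord.cof < lam) →
      ¬ Strategic lam θ →
      (∃ E : Set Ordinal.{0}, IsClubIn E lam.ord ∧ ∀ ε ∈ E, ∃ μ : Cardinal.{0},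
        ε = μ.ord ∧ μ.ord.cof < lam.ord.cof ∧ θ < μ ∧ ¬ Strategic μ θ) ∧
      ∀ C : Set Ordinal.{0}, IsClubIn C lam.ord →
        ∃ μ : Cardinal.{0}, μ.ord ∈ C ∧ μ.ord.cof = ℵ₀ ∧ θ < μ ∧ ¬ Strategic μ θ := by
  have hB : ∀ μ : Cardinal.{0}, μ.ord.cof < θ → θ < μ →
      (Strategic μ θ → Q1At μ θ) ∧ (ClubVersion μ θ ∨ WeakSquare μ → Strategic μ θ) := by
    intro μ h1 h2
    have hμ : ℵ₀ ≤ μ := hreg.aleph0_le.trans h2.le
    have hcof : ℵ₀ ≤ μ.ord.cof :=
      (Cardinal.isRegular_cof (Cardinal.isSuccLimit_ord hμ)).aleph0_le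
    refine ⟨fun h => ?_, fun h => (strategic_iff μ θ).2 ?_⟩
    · open Pool.FAT in
      exact Pool.FAS.fat_of_SV t_Mono t_Compl t_CofPts t_Seq t_CofEq t_Pull t_Trans hcof hreg h1
        h2 ((strategic_iff μ θ).1 h)
    · refine Pool.FAS.sv_of_clubGood Pool.FAT.t_CofEq hreg ?_
      rcases h with h | h
      · exact h
      · open Pool.FAT in
        exact Pool.FAS.clubGood_of_WS t_Seq hcof hreg.aleph0_le h1 h2
          (t_WSq t_Tail t_CofPts t_Seq t_Pull μ θ hμ hreg (hcof.trans_lt h1) h1.ne' h)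
  refine ⟨hB, fun lam h1 h6 h7 h3 hfail => ?_⟩
  have hlam : ℵ₀ ≤ lam := hreg.aleph0_le.trans h7.le
  obtain ⟨E, hE, hE2⟩ : ∃ E : Set Ordinal.{0}, Pool.FAT.IsClubIn E lam.ord ∧
      ∀ ε ∈ E, ∃ μ : Cardinal.{0}, ε = μ.ord ∧ ¬ Pool.FAS.SV μ θ := by
    open Pool.FAT in
    exact Pool.FAS.sv_club t_Mono t_Tail t_Compl t_Fodor t_CofPts t_Seq t_CofEq
      (t_Lift t_Mono) t_Pull (t_KEQ t_Tail t_Diag t_CofEq) t_Trans t_Rank
      (t_GFun t_Tail t_Diag t_Seq t_CofEq) (t_Cofinal t_Tail t_Fodor t_Count)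
      (t_XCard t_Count) h1 h3 hreg h6 h7 fun h => hfail ((strategic_iff lam θ).2 h)
  obtain ⟨E', hE', hE3⟩ := Pool.FAS.exists_club_below Pool.FAT.t_Tail Pool.FAT.t_CofPts
    Pool.FAT.t_Seq Pool.FAT.t_CofEq Pool.FAT.t_Pull hlam h1 hE θ.ord (Cardinal.ord_lt_ord.2 h7)
  refine ⟨⟨E', hE', fun ε hε => ?_⟩, fun C hC => ?_⟩
  · obtain ⟨h9, h10, h11⟩ := hE3 ε hε
    obtain ⟨μ, rfl, h8⟩ := hE2 ε h9
    exact ⟨μ, rfl, h11, Cardinal.ord_lt_ord.1 h10, fun h => h8 ((strategic_iff μ θ).1 h)⟩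
  · obtain ⟨ε, hε, hεC, hεc⟩ := Pool.FAS.exists_cof_aleph0 Pool.FAT.t_CofPts Pool.FAT.t_Seq
      Pool.FAT.t_CofEq Pool.FAT.t_Pull hlam h1 hE' hC
    obtain ⟨h9, h10, -⟩ := hE3 ε hε
    obtain ⟨μ, rfl, h8⟩ := hE2 ε h9
    exact ⟨μ, hεC, hεc, Cardinal.ord_lt_ord.1 h10, fun h => h8 ((strategic_iff μ θ).1 h)⟩

end Pool.Agent.Results.MP_a44074_lc.StrategicVersion
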